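import Pool.Agent.H9.SelbergD

set_option autoImplicit false

namespace Pool.Agent.Results.MP_bac04d_nt.AllDegrees

open Pool.Agent.H9.Selberg Filter Topology

/-- For every real `d ≥ 2` there is a nonzero entire function `F`, equal to an absolutely
convergent Dirichlet series for `re s > 1`, polynomially bounded in every vertical strip, such that
`Φ(s) = Q ^ s Γ(d s / 2) F(s)` extends to an entire function with `Φ(s) = conj (Φ(1 - conj s))`.
So `F` has degree `2 * (d / 2) = d`. -/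
theorem result (d : ℝ) (hd : 2 ≤ d) :
    ∃ (F : ℂ → ℂ) (a : ℕ → ℂ) (Q : ℝ) (Φ : ℂ → ℂ),
      Differentiable ℂ F ∧ F ≠ 0 ∧ a 1 = 1 ∧
      (∀ s : ℂ, 1 < s.re →
        Summable (fun n : ℕ => ‖a (n + 1) / ((n + 1 : ℕ) : ℂ) ^ s‖) ∧
        F s = ∑' n : ℕ, a (n + 1) / ((n + 1 : ℕ) : ℂ) ^ s) ∧
      (∀ σ₁ σ₂ : ℝ, ∃ C M : ℝ, ∀ s : ℂ, σ₁ ≤ s.re → s.re ≤ σ₂ →
        ‖F s‖ ≤ C * (1 + |s.im|) ^ M) ∧
      0 < Q ∧ Differentiable ℂ Φ ∧
      (∀ s : ℂ, (∀ n : ℕ, ((d / 2 : ℝ) : ℂ) * s ≠ -(n : ℂ)) →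
        Φ s = (Q : ℂ) ^ s * Complex.Gamma (((d / 2 : ℝ) : ℂ) * s) * F s) ∧
      (∀ s : ℂ, Φ s = starRingEnd ℂ (Φ (1 - starRingEnd ℂ s))) := by
  set α : ℝ := d / 2 with hαd
  have hα : 1 ≤ α := by rw [hαd]; linarith
  have hα0 : 0 < α := by linarith
  obtain ⟨a, ha0, ha1, hsum, hfe⟩ := exists_coeff α hα
  have hc : (0 : ℝ) < 1 / 8 := by norm_num
  obtain ⟨Λ, hΛd, hFE, hconj, hL, hgrow⟩ := exists_F α hα0 (1 / 8) hc a ha0 hsum hfe
  set c : ℝ := 1 / 8 with hcdef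
  have hc' : (c : ℂ) ≠ 0 := Complex.ofReal_ne_zero.2 hc.ne'
  let F : ℂ → ℂ := fun s => Λ (α * s) * (Complex.Gamma (α * s))⁻¹ * (c : ℂ) ^ (α * s)
  have hlin : Differentiable ℂ fun s : ℂ => (α : ℂ) * s := differentiable_id.const_mul _
  refine ⟨F, fun n => (a n : ℂ), c ^ (-α), fun s => Λ (α * s), ?_, ?_, by simp [ha1], ?_, ?_,
    Real.rpow_pos_of_pos hc _, hΛd.comp hlin, ?_, ?_⟩
  · exact ((hΛd.comp hlin).mul (Complex.differentiable_one_div_Gamma.comp hlin)).mul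
      (hlin.const_cpow (Or.inl hc'))
  · intro h0
    have h2 := (hL 2 (by simp)).1
    have h3 := LSeries.tendsto_atTop (h2.abscissaOfAbsConv_le.trans_lt (EReal.coe_lt_top _))
    have h4 : (fun x : ℝ => LSeries (fun n => (a n : ℂ)) x) =ᶠ[atTop] fun _ => 0 := by
      filter_upwards [eventually_gt_atTop (1 : ℝ)] with x hx
      rw [← (hL x (by simpa using hx)).2]
      exact congrFun h0 x
    have h5 := tendsto_nhds_unique (h3.congr' h4) tendsto_const_nhds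
    simp [ha1] at h5
  · intro s hs
    obtain ⟨h1, h2⟩ := hL s hs
    have e : ∀ n : ℕ, LSeries.term (fun n => (a n : ℂ)) s (n + 1)
        = (a (n + 1) : ℂ) / ((n + 1 : ℕ) : ℂ) ^ s := fun n =>
      LSeries.term_of_ne_zero (Nat.succ_ne_zero n) _ _
    have h3 : Summable (LSeries.term (fun n => (a n : ℂ)) s) := h1
    constructor
    · have := (summable_nat_add_iff 1).2 h3.norm
      simpa only [e] using this
    · show Λ (α * s) * (Complex.Gamma (α * s))⁻¹ * (c : ℂ) ^ (α * s) = _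
      rw [h2, LSeries, h3.tsum_eq_zero_add, LSeries.term_zero, zero_add]
      simp only [e]
  · intro σ₁ σ₂
    obtain ⟨C, m, hC⟩ := hgrow (α * σ₁) (α * σ₂)
    refine ⟨|C| * α ^ m * c ^ (α * σ₁), m, fun s h1 h2 => ?_⟩
    have hre : ((α : ℂ) * s).re = α * s.re := Complex.re_ofReal_mul _ _
    have him : ((α : ℂ) * s).im = α * s.im := Complex.im_ofReal_mul _ _
    have h3 := hC (α * s) (by rw [hre]; exact mul_le_mul_of_nonneg_left h1 hα0.le)
      (by rw [hre]; exact mul_le_mul_of_nonneg_left h2 hα0.le)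
    have h4 : ‖(c : ℂ) ^ ((α : ℂ) * s)‖ ≤ c ^ (α * σ₁) := by
      rw [Complex.norm_cpow_eq_rpow_re_of_pos hc, hre]
      exact Real.rpow_le_rpow_of_exponent_ge hc (by rw [hcdef]; norm_num)
        (mul_le_mul_of_nonneg_left h1 hα0.le)
    have h5 : (1 + |((α : ℂ) * s).im|) ^ m ≤ (α * (1 + |s.im|)) ^ m := by
      refine pow_le_pow_left₀ (by positivity) ?_ m
      rw [him, abs_mul, abs_of_pos hα0]
      linarith
    have h6 : ‖Λ (α * s) * (Complex.Gamma (α * s))⁻¹‖ ≤ |C| * (α * (1 + |s.im|)) ^ m :=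
      h3.trans (mul_le_mul (le_abs_self C) h5 (by positivity) (abs_nonneg C))
    simp only [F]
    rw [norm_mul, Real.rpow_natCast]
    calc _ ≤ |C| * (α * (1 + |s.im|)) ^ m * c ^ (α * σ₁) :=
          mul_le_mul h6 h4 (norm_nonneg _) (by positivity)
      _ = _ := by rw [mul_pow]; ring
  · intro s hs
    have h1 : Complex.Gamma (α * s) ≠ 0 := Complex.Gamma_ne_zero hs
    have h2 : ((c ^ (-α) : ℝ) : ℂ) ^ s * (c : ℂ) ^ ((α : ℂ) * s) = 1 := by
      rw [← Complex.cpow_mul_ofReal_nonneg hc.le, ← Complex.cpow_add _ _ hc']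
      simp
    simp only [F]
    calc Λ (α * s) = Λ (α * s) * (Complex.Gamma (α * s) * (Complex.Gamma (α * s))⁻¹)
          * (((c ^ (-α) : ℝ) : ℂ) ^ s * (c : ℂ) ^ ((α : ℂ) * s)) := by
          rw [h2, mul_inv_cancel₀ h1, mul_one, mul_one]
      _ = _ := by ring
  · intro s
    have e : (α : ℂ) * (1 - starRingEnd ℂ s) = α - starRingEnd ℂ (α * s) := by
      simp; ring
    simp only [e]
    rw [hFE, hconj, Complex.conj_conj]

end Pool.Agent.Results.MP_bac04d_nt.AllDegrees
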